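import Pool.Agent.W275.Hole.Tiling

/-!
# A neighbourhood with a hole
-/

set_option autoImplicit false

namespace Pool.Agent.W275.Hole

open Complex Topology

/-- the tiling -/
def TT : Set (Set ℂ) := {A | ∃ (k : Fin 8) (m n : ℤ), A = tile k m n}

theorem cover : ⋃₀ TT = Set.univ := by
  rw [Set.eq_univ_iff_forall]
  intro z
  obtain ⟨k, m, n, h⟩ := exists_tile z
  exact ⟨_, ⟨k, m, n, rfl⟩, h⟩

theorem pairwise_disjoint : TT.Pairwise (fun A B => Disjoint (interior A) (interior B)) := by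
  rintro _ ⟨k, m, n, rfl⟩ _ ⟨k', m', n', rfl⟩ h
  exact disjoint_interior h

/-- the neighbourhood of the tile `0, 0, 0` -/
def NN : Set ℂ := ⋃₀ {T' ∈ TT | (T' ∩ tile 0 0 0).Nonempty}

/-- a point of the hole -/
noncomputable def c0 : ℂ := pt (7 / 2) (-2)

theorem mem_tile0 (z : ℂ) : z ∈ tile 0 0 0 ↔
    ((-2 ≤ V z ∧ V z ≤ 0 ∧ -1 ≤ U z + V z ∧ U z + V z ≤ 0) ∨
      (-4 ≤ V z ∧ V z ≤ -2 ∧ 1 ≤ U z ∧ U z ≤ 2)) := by
  have : z ∈ tile 0 0 0 ↔ S 0 (U z - ((0 : ℤ) : ℝ)) (V z - ((0 : ℤ) : ℝ)) := Iff.rfl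
  rw [this, Int.cast_zero, sub_zero, sub_zero]
  exact Iff.rfl

theorem mem_tile2 (z : ℂ) : z ∈ tile 2 0 0 ↔
    ((-2 ≤ V z ∧ V z ≤ 0 ∧ 1 ≤ U z + V z ∧ U z + V z ≤ 2) ∨
      (-4 ≤ V z ∧ V z ≤ -2 ∧ 3 ≤ U z ∧ U z ≤ 4)) := by
  have : z ∈ tile 2 0 0 ↔ S 0 (U z - ((2 : ℤ) : ℝ)) (V z - ((0 : ℤ) : ℝ)) := Iff.rfl
  rw [this, Int.cast_zero, sub_zero, Int.cast_ofNat]
  change ((-2 ≤ V z ∧ V z ≤ 0 ∧ -1 ≤ U z - 2 + V z ∧ U z - 2 + V z ≤ 0) ∨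
      (-4 ≤ V z ∧ V z ≤ -2 ∧ 1 ≤ U z - 2 ∧ U z - 2 ≤ 2)) ↔ _
  constructor
  · rintro (⟨a, b, c, d⟩ | ⟨a, b, c, d⟩)
    · left; refine ⟨?_, ?_, ?_, ?_⟩ <;> linarith
    · right; refine ⟨?_, ?_, ?_, ?_⟩ <;> linarith
  · rintro (⟨a, b, c, d⟩ | ⟨a, b, c, d⟩)
    · left; refine ⟨?_, ?_, ?_, ?_⟩ <;> linarith
    · right; refine ⟨?_, ?_, ?_, ?_⟩ <;> linarith

theorem mem_tile3 (z : ℂ) (h : (0 ≤ U z ∧ U z ≤ 2 ∧ 0 ≤ V z ∧ V z ≤ 1) ∨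
      (2 ≤ U z ∧ U z ≤ 4 ∧ 2 ≤ U z + V z ∧ U z + V z ≤ 3)) : z ∈ tile 3 0 0 := by
  change S 1 (U z - ((0 : ℤ) : ℝ)) (V z - ((1 : ℤ) : ℝ))
  rw [Int.cast_zero, sub_zero, Int.cast_one]
  change ((0 ≤ U z ∧ U z ≤ 2 ∧ -1 ≤ V z - 1 ∧ V z - 1 ≤ 0) ∨
    (2 ≤ U z ∧ U z ≤ 4 ∧ 1 ≤ U z + (V z - 1) ∧ U z + (V z - 1) ≤ 2))
  rcases h with ⟨a, b, c, d⟩ | ⟨a, b, c, d⟩
  · left; refine ⟨?_, ?_, ?_, ?_⟩ <;> linarith
  · right; refine ⟨?_, ?_, ?_, ?_⟩ <;> linarith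

theorem mem_tile4 (z : ℂ) (h : (0 ≤ U z + V z ∧ U z + V z ≤ 2 ∧ 4 ≤ U z ∧ U z ≤ 5) ∨
      (-2 ≤ U z + V z ∧ U z + V z ≤ 0 ∧ -5 ≤ V z ∧ V z ≤ -4)) : z ∈ tile 4 0 0 := by
  change S 2 (U z - ((5 : ℤ) : ℝ)) (V z - ((-3 : ℤ) : ℝ))
  rw [Int.cast_ofNat, Int.cast_neg, Int.cast_ofNat]
  change ((-2 ≤ U z - 5 + (V z - -3) ∧ U z - 5 + (V z - -3) ≤ 0 ∧ -1 ≤ U z - 5 ∧ U z - 5 ≤ 0) ∨
    (-4 ≤ U z - 5 + (V z - -3) ∧ U z - 5 + (V z - -3) ≤ -2 ∧ -2 ≤ V z - -3 ∧ V z - -3 ≤ -1))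
  rcases h with ⟨a, b, c, d⟩ | ⟨a, b, c, d⟩
  · left; refine ⟨?_, ?_, ?_, ?_⟩ <;> linarith
  · right; refine ⟨?_, ?_, ?_, ?_⟩ <;> linarith

/-- the only tile that contains the point `c0` is the tile `2, 0, 0` -/
theorem c0_tile {k : Fin 8} {m n : ℤ} (h : c0 ∈ tile k m n) : k = 2 ∧ m = 0 ∧ n = 0 := by
  have h' : S (ty k) (7 / 2 - sa k m n) (-2 - sb k n) := by
    have : S (ty k) (U c0 - sa k m n) (V c0 - sb k n) := h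
    rwa [c0, U_pt, V_pt] at this
  have q : Q k m n 3 (-2) 1 ∨ Q k m n 3 (-3) 1 := by
    unfold Q
    set a := sa k m n
    set b := sb k n
    have lo1 : ∀ A : ℤ, (A : ℝ) ≤ 7 / 2 - a → A ≤ 3 - a := by
      intro A hA
      have : ((A + a : ℤ) : ℝ) < ((4 : ℤ) : ℝ) := by push_cast; linarith
      have := Int.cast_lt.1 this
      omega
    have hi1 : ∀ A : ℤ, 7 / 2 - (a : ℝ) ≤ A → 3 - a + 1 ≤ A := by
      intro A hA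
      have : ((3 : ℤ) : ℝ) < ((A + a : ℤ) : ℝ) := by push_cast; linarith
      have := Int.cast_lt.1 this
      omega
    have lo2 : ∀ A : ℤ, (A : ℝ) ≤ -2 - b → A ≤ -2 - b := by
      intro A hA
      have : ((A + b : ℤ) : ℝ) ≤ ((-2 : ℤ) : ℝ) := by push_cast; linarith
      have := Int.cast_le.1 this
      omega
    have hi2 : ∀ A : ℤ, -2 - (b : ℝ) ≤ A → -2 - b ≤ A := by
      intro A hA
      have : ((-2 : ℤ) : ℝ) ≤ ((A + b : ℤ) : ℝ) := by push_cast; linarith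
      have := Int.cast_le.1 this
      omega
    have lo3 : ∀ A : ℤ, (A : ℝ) ≤ 7 / 2 - a + (-2 - b) → A ≤ 1 - a - b := by
      intro A hA
      have : ((A + a + b : ℤ) : ℝ) < ((2 : ℤ) : ℝ) := by push_cast; linarith
      have := Int.cast_lt.1 this
      omega
    have hi3 : ∀ A : ℤ, 7 / 2 - (a : ℝ) + (-2 - b) ≤ A → 1 - a - b + 1 ≤ A := by
      intro A hA
      have : ((1 : ℤ) : ℝ) < ((A + a + b : ℤ) : ℝ) := by push_cast; linarith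
      have := Int.cast_lt.1 this
      omega
    generalize ty k = t at h' ⊢
    match t, h' with
    | 0, h' =>
      show ((-2 ≤ -2 - b ∧ -2 - b + 1 ≤ 0 ∧ -1 ≤ 1 - a - b ∧ 1 - a - b + 1 ≤ 0) ∨
          (-4 ≤ -2 - b ∧ -2 - b + 1 ≤ -2 ∧ 1 ≤ 3 - a ∧ 3 - a + 1 ≤ 2)) ∨
        ((-2 ≤ -3 - b ∧ -3 - b + 1 ≤ 0 ∧ -1 ≤ 1 - a - b ∧ 1 - a - b + 1 ≤ 0) ∨
          (-4 ≤ -3 - b ∧ -3 - b + 1 ≤ -2 ∧ 1 ≤ 3 - a ∧ 3 - a + 1 ≤ 2))
      rcases h' with ⟨x1, x2, x3, x4⟩ | ⟨x1, x2, x3, x4⟩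
      · have y1 := lo2 (-2) (by exact_mod_cast x1)
        have y2 := hi2 0 (by exact_mod_cast x2)
        have y3 := lo3 (-1) (by exact_mod_cast x3)
        have y4 := hi3 0 (by exact_mod_cast x4)
        omega
      · have y1 := lo2 (-4) (by exact_mod_cast x1)
        have y2 := hi2 (-2) (by exact_mod_cast x2)
        have y3 := lo1 1 (by exact_mod_cast x3)
        have y4 := hi1 2 (by exact_mod_cast x4)
        omega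
    | 1, h' =>
      show ((0 ≤ 3 - a ∧ 3 - a + 1 ≤ 2 ∧ -1 ≤ -2 - b ∧ -2 - b + 1 ≤ 0) ∨
          (2 ≤ 3 - a ∧ 3 - a + 1 ≤ 4 ∧ 1 ≤ 1 - a - b ∧ 1 - a - b + 1 ≤ 2)) ∨
        ((0 ≤ 3 - a ∧ 3 - a + 1 ≤ 2 ∧ -1 ≤ -3 - b ∧ -3 - b + 1 ≤ 0) ∨
          (2 ≤ 3 - a ∧ 3 - a + 1 ≤ 4 ∧ 1 ≤ 1 - a - b ∧ 1 - a - b + 1 ≤ 2))
      rcases h' with ⟨x1, x2, x3, x4⟩ | ⟨x1, x2, x3, x4⟩
      · have y1 := lo1 0 (by exact_mod_cast x1)
        have y2 := hi1 2 (by exact_mod_cast x2)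
        have y3 := lo2 (-1) (by exact_mod_cast x3)
        have y4 := hi2 0 (by exact_mod_cast x4)
        omega
      · have y1 := lo1 2 (by exact_mod_cast x1)
        have y2 := hi1 4 (by exact_mod_cast x2)
        have y3 := lo3 1 (by exact_mod_cast x3)
        have y4 := hi3 2 (by exact_mod_cast x4)
        omega
    | 2, h' =>
      show ((-2 ≤ 1 - a - b ∧ 1 - a - b + 1 ≤ 0 ∧ -1 ≤ 3 - a ∧ 3 - a + 1 ≤ 0) ∨
          (-4 ≤ 1 - a - b ∧ 1 - a - b + 1 ≤ -2 ∧ -2 ≤ -2 - b ∧ -2 - b + 1 ≤ -1)) ∨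
        ((-2 ≤ 1 - a - b ∧ 1 - a - b + 1 ≤ 0 ∧ -1 ≤ 3 - a ∧ 3 - a + 1 ≤ 0) ∨
          (-4 ≤ 1 - a - b ∧ 1 - a - b + 1 ≤ -2 ∧ -2 ≤ -3 - b ∧ -3 - b + 1 ≤ -1))
      rcases h' with ⟨x1, x2, x3, x4⟩ | ⟨x1, x2, x3, x4⟩
      · have y1 := lo3 (-2) (by exact_mod_cast x1)
        have y2 := hi3 0 (by exact_mod_cast x2)
        have y3 := lo1 (-1) (by exact_mod_cast x3)
        have y4 := hi1 0 (by exact_mod_cast x4)
        omega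
      · have y1 := lo3 (-4) (by exact_mod_cast x1)
        have y2 := hi3 (-2) (by exact_mod_cast x2)
        have y3 := lo2 (-2) (by exact_mod_cast x3)
        have y4 := hi2 (-1) (by exact_mod_cast x4)
        omega
  rcases q with q | q
  · exact unique_Q (Or.inl rfl) q (by decide : Q 2 0 0 3 (-2) 1)
  · exact unique_Q (Or.inr rfl) q (by decide : Q 2 0 0 3 (-3) 1)

theorem c0_notMem : c0 ∉ NN := by
  rintro ⟨_, ⟨⟨k, m, n, rfl⟩, x, hx, hx0⟩, h⟩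
  obtain ⟨rfl, rfl, rfl⟩ := c0_tile h
  rw [mem_tile2] at hx
  rw [mem_tile0] at hx0
  rcases hx with ⟨a, b, c, d⟩ | ⟨a, b, c, d⟩ <;> rcases hx0 with ⟨e, f, g, h⟩ | ⟨e, f, g, h⟩ <;> linarith

theorem sub0 : tile 0 0 0 ⊆ NN := by
  intro z hz
  exact ⟨_, ⟨⟨0, 0, 0, rfl⟩, z, hz, hz⟩, hz⟩

theorem sub3 : tile 3 0 0 ⊆ NN := by
  intro z hz
  refine ⟨_, ⟨⟨3, 0, 0, rfl⟩, pt 0 0, ?_, ?_⟩, hz⟩
  · apply mem_tile3; left; rw [U_pt, V_pt]; norm_num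
  · rw [mem_tile0]; left; rw [U_pt, V_pt]; norm_num

theorem sub4 : tile 4 0 0 ⊆ NN := by
  intro z hz
  refine ⟨_, ⟨⟨4, 0, 0, rfl⟩, pt 2 (-4), ?_, ?_⟩, hz⟩
  · apply mem_tile4; right; rw [U_pt, V_pt]; norm_num
  · rw [mem_tile0]; right; rw [U_pt, V_pt]; norm_num

theorem im_sub (z : ℂ) : (z - c0).im = (V z + 2) * (√3 / 2) := by
  have h := s3pos.ne'
  simp only [sub_im, c0, pt, V]
  field_simp
  ring

/-- a segment in a set of points described by the coordinates -/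
theorem joined_seg {R : Set ℂ} (a b a' b' : ℝ)
    (h : ∀ s t : ℝ, 0 ≤ s → 0 ≤ t → s + t = 1 → ∀ z, U z = s * a + t * a' → V z = s * b + t * b' → z ∈ R) :
    JoinedIn R (pt a b) (pt a' b') := by
  apply JoinedIn.of_segment_subset
  rintro _ ⟨s, t, hs, ht, hst, rfl⟩
  refine h s t hs ht hst _ ?_ ?_
  · rw [U_add, U_smul, U_smul, U_pt, U_pt]
  · rw [V_add, V_smul, V_smul, V_pt, V_pt]

theorem up_path : JoinedIn (NN ∩ {z | -2 ≤ V z}) (pt 2 (-2)) (pt 4 (-2)) := by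
  have h1 : JoinedIn (NN ∩ {z | -2 ≤ V z}) (pt 2 (-2)) (pt 0 0) := by
    apply joined_seg
    intro s t hs ht hst z hU hV
    refine ⟨sub0 ?_, ?_⟩
    · rw [mem_tile0, hU, hV]; left
      refine ⟨?_, ?_, ?_, ?_⟩ <;> linarith
    · change -2 ≤ V z
      rw [hV]; linarith
  have h2 : JoinedIn (NN ∩ {z | -2 ≤ V z}) (pt 0 0) (pt 2 0) := by
    apply joined_seg
    intro s t hs ht hst z hU hV
    refine ⟨sub3 ?_, ?_⟩
    · apply mem_tile3; rw [hU, hV]; left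
      refine ⟨?_, ?_, ?_, ?_⟩ <;> linarith
    · change -2 ≤ V z
      rw [hV]; linarith
  have h3 : JoinedIn (NN ∩ {z | -2 ≤ V z}) (pt 2 0) (pt 4 (-2)) := by
    apply joined_seg
    intro s t hs ht hst z hU hV
    refine ⟨sub3 ?_, ?_⟩
    · apply mem_tile3; rw [hU, hV]; right
      refine ⟨?_, ?_, ?_, ?_⟩ <;> linarith
    · change -2 ≤ V z
      rw [hV]; linarith
  exact (h1.trans h2).trans h3

theorem down_path : JoinedIn (NN ∩ {z | V z ≤ -2}) (pt 2 (-2)) (pt 4 (-2)) := by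
  have h1 : JoinedIn (NN ∩ {z | V z ≤ -2}) (pt 2 (-2)) (pt 2 (-4)) := by
    apply joined_seg
    intro s t hs ht hst z hU hV
    refine ⟨sub0 ?_, ?_⟩
    · rw [mem_tile0, hU, hV]; right
      refine ⟨?_, ?_, ?_, ?_⟩ <;> linarith
    · change V z ≤ -2
      rw [hV]; linarith
  have h2 : JoinedIn (NN ∩ {z | V z ≤ -2}) (pt 2 (-4)) (pt 4 (-4)) := by
    apply joined_seg
    intro s t hs ht hst z hU hV
    refine ⟨sub4 ?_, ?_⟩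
    · apply mem_tile4; rw [hU, hV]; right
      refine ⟨?_, ?_, ?_, ?_⟩ <;> linarith
    · change V z ≤ -2
      rw [hV]; linarith
  have h3 : JoinedIn (NN ∩ {z | V z ≤ -2}) (pt 4 (-4)) (pt 4 (-2)) := by
    apply joined_seg
    intro s t hs ht hst z hU hV
    refine ⟨sub4 ?_, ?_⟩
    · apply mem_tile4; rw [hU, hV]; left
      refine ⟨?_, ?_, ?_, ?_⟩ <;> linarith
    · change V z ≤ -2
      rw [hV]; linarith
  exact (h1.trans h2).trans h3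

/-- paths in a part of a set, as paths in the subtype -/
theorem path_of_joinedIn {R : Set ℂ} {p : ℂ → Prop} {x y : ℂ} (h : JoinedIn (R ∩ {z | p z}) x y)
    (hx : x ∈ R) (hy : y ∈ R) : ∃ γ : Path (⟨x, hx⟩ : R) ⟨y, hy⟩, ∀ t, p (γ t : ℂ) := by
  refine ⟨⟨⟨fun t => ⟨h.somePath t, (h.somePath_mem t).1⟩, ?_⟩, ?_, ?_⟩, ?_⟩
  · exact h.somePath.continuous.subtype_mk _
  · exact Subtype.ext h.somePath.source
  · exact Subtype.ext h.somePath.target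
  · intro t
    exact (h.somePath_mem t).2

theorem NN_not_sc : ¬ SimplyConnectedSpace NN := by
  obtain ⟨α, hα⟩ := path_of_joinedIn up_path up_path.source_mem.1 up_path.target_mem.1
  obtain ⟨β, hβ⟩ := path_of_joinedIn down_path up_path.source_mem.1 up_path.target_mem.1
  have h3 : (0 : ℝ) < √3 / 2 := by have := s3pos; linarith
  refine not_simplyConnected (fun z : NN => (z : ℂ) - c0) (by fun_prop) ?_ α β ?_ ?_ ?_ ?_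
  · rintro ⟨z, hz⟩ h
    apply c0_notMem
    have : z = c0 := sub_eq_zero.1 h
    rwa [← this]
  · intro t
    rw [im_sub]
    have := hα t
    exact mul_nonneg (by linarith) h3.le
  · intro t
    rw [im_sub]
    have := hβ t
    exact mul_nonpos_of_nonpos_of_nonneg (by linarith) h3.le
  · simp only [c0, pt, sub_re]
    norm_num
  · simp only [c0, pt, sub_re]
    norm_num

/-- **The neighbourhood of a tile in a monohedral tiling by discs need not be simply connected.** -/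
theorem main :
    ∃ (C : Set ℂ) (𝒯 : Set (Set ℂ)), Nonempty (C ≃ₜ Metric.closedBall (0 : ℂ) 1) ∧
      (∀ T ∈ 𝒯, ∃ f : ℂ ≃ᵢ ℂ, T = f '' C) ∧ ⋃₀ 𝒯 = Set.univ ∧
      𝒯.Pairwise (fun A B => Disjoint (interior A) (interior B)) ∧
      ∃ T ∈ 𝒯, ¬ SimplyConnectedSpace (⋃₀ {T' ∈ 𝒯 | (T' ∩ T).Nonempty}) := by
  refine ⟨C0, TT, C0_disc, ?_, cover, pairwise_disjoint, tile 0 0 0, ⟨0, 0, 0, rfl⟩, NN_not_sc⟩
  rintro _ ⟨k, m, n, rfl⟩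
  exact tile_iso k m n

abbrev E2 := EuclideanSpace ℝ (Fin 2)

theorem main_E2 :
    ∃ (C : Set E2) (𝒯 : Set (Set E2)), Nonempty (C ≃ₜ Metric.closedBall (0 : E2) 1) ∧
      (∀ T ∈ 𝒯, ∃ f : E2 ≃ᵢ E2, T = f '' C) ∧ ⋃₀ 𝒯 = Set.univ ∧
      𝒯.Pairwise (fun A B => Disjoint (interior A) (interior B)) ∧
      ∃ T ∈ 𝒯, ¬ SimplyConnectedSpace (⋃₀ {T' ∈ 𝒯 | (T' ∩ T).Nonempty}) := by
  obtain ⟨C, 𝒯, ⟨e⟩, hiso, hcov, hdis, T, hT, hsc⟩ := main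
  let Φ : ℂ ≃ᵢ E2 := (Complex.orthonormalBasisOneI.repr : ℂ ≃ₗᵢ[ℝ] E2).toIsometryEquiv
  obtain ⟨ecb⟩ := VT927.k_CB
  refine ⟨Φ '' C, (fun A => Φ '' A) '' 𝒯, ⟨((Φ.toHomeomorph.image C).symm.trans e).trans ecb⟩, ?_, ?_, ?_,
    Φ '' T, ⟨T, hT, rfl⟩, ?_⟩
  · rintro _ ⟨A, hA, rfl⟩
    obtain ⟨f, rfl⟩ := hiso A hA
    refine ⟨(Φ.symm.trans f).trans Φ, ?_⟩
    ext x
    constructor
    · rintro ⟨_, ⟨y, hy, rfl⟩, rfl⟩
      exact ⟨Φ y, ⟨y, hy, rfl⟩, by simp⟩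
    · rintro ⟨_, ⟨y, hy, rfl⟩, rfl⟩
      exact ⟨f y, ⟨y, hy, rfl⟩, by simp⟩
  · rw [Set.eq_univ_iff_forall]
    intro x
    have : Φ.symm x ∈ ⋃₀ 𝒯 := by rw [hcov]; trivial
    obtain ⟨A, hA, hx⟩ := this
    exact ⟨Φ '' A, ⟨A, hA, rfl⟩, Φ.symm x, hx, by simp⟩
  · rintro _ ⟨A, hA, rfl⟩ _ ⟨B, hB, rfl⟩ hne
    have hne' : A ≠ B := fun h => hne (by rw [h])
    have hi : ∀ X : Set ℂ, interior (Φ '' X) = Φ '' interior X := fun X =>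
      (Φ.toHomeomorph.image_interior X).symm
    simp only
    rw [hi, hi]
    exact (Set.disjoint_image_iff Φ.injective).2 (hdis hA hB hne')
  · have himg : ⋃₀ {T' ∈ (fun A => Φ '' A) '' 𝒯 | (T' ∩ Φ '' T).Nonempty} =
        Φ '' (⋃₀ {T' ∈ 𝒯 | (T' ∩ T).Nonempty}) := by
      ext x
      constructor
      · rintro ⟨_, ⟨⟨A, hA, rfl⟩, hne⟩, y, hy, rfl⟩
        refine ⟨y, ⟨A, ⟨hA, ?_⟩, hy⟩, rfl⟩
        rw [← Set.image_inter Φ.injective] at hne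
        exact hne.of_image
      · rintro ⟨y, ⟨A, ⟨hA, hne⟩, hy⟩, rfl⟩
        refine ⟨Φ '' A, ⟨⟨A, hA, rfl⟩, ?_⟩, y, hy, rfl⟩
        rw [← Set.image_inter Φ.injective]
        exact hne.image _
    rw [himg]
    intro h
    apply hsc
    have h' : IsSimplyConnected (Φ '' (⋃₀ {T' ∈ 𝒯 | (T' ∩ T).Nonempty})) := h
    exact (Topology.IsEmbedding.isSimplyConnected_image Φ.toHomeomorph.isEmbedding).1 h'

end Pool.Agent.W275.Hole
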