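import Mathlib

/-!
# The chevron octiamond and a periodic tiling of the plane with it

Oblique coordinates: `z = U z + (V z) ω`, `ω = exp (i π / 3)`.
-/

set_option autoImplicit false

namespace Pool.Agent.W275.Hole

open Complex Topology

theorem s3 : (√3 : ℝ) ^ 2 = 3 := Real.sq_sqrt (by norm_num)

theorem s3pos : (0 : ℝ) < √3 := Real.sqrt_pos.2 (by norm_num)

/-- first oblique coordinate -/
noncomputable def U (z : ℂ) : ℝ := z.re - z.im / √3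

/-- second oblique coordinate -/
noncomputable def V (z : ℂ) : ℝ := 2 * z.im / √3

/-- the point with oblique coordinates `u, v` -/
noncomputable def pt (u v : ℝ) : ℂ := ⟨u + v / 2, v * √3 / 2⟩

@[simp] theorem U_pt (u v : ℝ) : U (pt u v) = u := by
  have := s3pos.ne'
  simp only [U, pt]
  field_simp
  ring

@[simp] theorem V_pt (u v : ℝ) : V (pt u v) = v := by
  have := s3pos.ne'
  simp only [V, pt]
  field_simp

theorem pt_UV (z : ℂ) : pt (U z) (V z) = z := by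
  have := s3pos.ne'
  apply Complex.ext
  · simp only [U, V, pt]; field_simp; ring
  · simp only [U, V, pt]; field_simp

theorem U_add (z w : ℂ) : U (z + w) = U z + U w := by simp only [U, add_re, add_im]; ring
theorem V_add (z w : ℂ) : V (z + w) = V z + V w := by simp only [V, add_im]; ring
theorem U_sub (z w : ℂ) : U (z - w) = U z - U w := by simp only [U, sub_re, sub_im]; ring
theorem V_sub (z w : ℂ) : V (z - w) = V z - V w := by simp only [V, sub_im]; ring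
theorem U_real_mul (t : ℝ) (z : ℂ) : U ((t : ℂ) * z) = t * U z := by
  simp only [U, re_ofReal_mul, im_ofReal_mul]; ring
theorem V_real_mul (t : ℝ) (z : ℂ) : V ((t : ℂ) * z) = t * V z := by
  simp only [V, im_ofReal_mul]; ring
theorem U_smul (t : ℝ) (z : ℂ) : U (t • z) = t * U z := by rw [real_smul, U_real_mul]
theorem V_smul (t : ℝ) (z : ℂ) : V (t • z) = t * V z := by rw [real_smul, V_real_mul]

theorem continuous_U : Continuous U := by unfold U; fun_prop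
theorem continuous_V : Continuous V := by unfold V; fun_prop

/-- `exp (i π / 3)` -/
noncomputable def om : ℂ := ⟨1 / 2, √3 / 2⟩

theorem U_om (z : ℂ) : U (om * z) = - V z := by
  have h := s3pos.ne'
  have h2 := s3
  simp only [U, V, om, mul_re, mul_im]
  field_simp
  ring_nf
  rw [h2]
  ring

theorem V_om (z : ℂ) : V (om * z) = U z + V z := by
  have h := s3pos.ne'
  simp only [U, V, om, mul_im]
  field_simp
  ring

theorem om_norm : om ∈ Metric.sphere (0 : ℂ) 1 := by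
  rw [mem_sphere_zero_iff_norm, Complex.norm_eq_sqrt_sq_add_sq]
  have : om.re ^ 2 + om.im ^ 2 = 1 := by
    simp only [om]
    rw [div_pow, div_pow, s3]
    norm_num
  rw [this, Real.sqrt_one]

/-- `om` as an element of the circle -/
noncomputable def omc : Circle := ⟨om, om_norm⟩

/-! ### the shapes -/

/-- the chevron and its rotations by `60` and `-60` degrees, in oblique coordinates -/
def S (t : Fin 3) (u v : ℝ) : Prop :=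
  match t with
  | 0 => (-2 ≤ v ∧ v ≤ 0 ∧ -1 ≤ u + v ∧ u + v ≤ 0) ∨ (-4 ≤ v ∧ v ≤ -2 ∧ 1 ≤ u ∧ u ≤ 2)
  | 1 => (0 ≤ u ∧ u ≤ 2 ∧ -1 ≤ v ∧ v ≤ 0) ∨ (2 ≤ u ∧ u ≤ 4 ∧ 1 ≤ u + v ∧ u + v ≤ 2)
  | 2 => (-2 ≤ u + v ∧ u + v ≤ 0 ∧ -1 ≤ u ∧ u ≤ 0) ∨ (-4 ≤ u + v ∧ u + v ≤ -2 ∧ -2 ≤ v ∧ v ≤ -1)

/-- the cell `i ≤ u ≤ i + 1, j ≤ v ≤ j + 1, s ≤ u + v ≤ s + 1` is in the shape -/
def P (t : Fin 3) (i j s : ℤ) : Prop :=
  match t with
  | 0 => (-2 ≤ j ∧ j + 1 ≤ 0 ∧ -1 ≤ s ∧ s + 1 ≤ 0) ∨ (-4 ≤ j ∧ j + 1 ≤ -2 ∧ 1 ≤ i ∧ i + 1 ≤ 2)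
  | 1 => (0 ≤ i ∧ i + 1 ≤ 2 ∧ -1 ≤ j ∧ j + 1 ≤ 0) ∨ (2 ≤ i ∧ i + 1 ≤ 4 ∧ 1 ≤ s ∧ s + 1 ≤ 2)
  | 2 => (-2 ≤ s ∧ s + 1 ≤ 0 ∧ -1 ≤ i ∧ i + 1 ≤ 0) ∨ (-4 ≤ s ∧ s + 1 ≤ -2 ∧ -2 ≤ j ∧ j + 1 ≤ -1)

instance (t : Fin 3) (i j s : ℤ) : Decidable (P t i j s) := by
  unfold P
  split <;> infer_instance

theorem lo {A n : ℤ} {x : ℝ} (h1 : (A : ℝ) ≤ x) (h2 : x < n + 1) : A ≤ n := by
  have : (A : ℝ) < ((n + 1 : ℤ) : ℝ) := by push_cast; linarith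
  have := Int.cast_lt.1 this
  omega

theorem hi {B n : ℤ} {x : ℝ} (h1 : x ≤ (B : ℝ)) (h2 : (n : ℝ) < x) : n + 1 ≤ B := by
  have : (n : ℝ) < (B : ℝ) := by linarith
  have := Int.cast_lt.1 this
  omega

theorem P_of_S {t : Fin 3} {i j s : ℤ} {u v : ℝ} (h1 : (i : ℝ) < u) (h2 : u < i + 1) (h3 : (j : ℝ) < v)
    (h4 : v < j + 1) (h5 : (s : ℝ) < u + v) (h6 : u + v < s + 1) (h : S t u v) : P t i j s := by
  match t, h with
  | 0, h =>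
    rcases h with ⟨a, b, c, d⟩ | ⟨a, b, c, d⟩
    · exact Or.inl ⟨lo (by exact_mod_cast a) h4, hi (by exact_mod_cast b) h3,
        lo (by exact_mod_cast c) h6, hi (by exact_mod_cast d) h5⟩
    · exact Or.inr ⟨lo (by exact_mod_cast a) h4, hi (by exact_mod_cast b) h3,
        lo (by exact_mod_cast c) h2, hi (by exact_mod_cast d) h1⟩
  | 1, h =>
    rcases h with ⟨a, b, c, d⟩ | ⟨a, b, c, d⟩
    · exact Or.inl ⟨lo (by exact_mod_cast a) h2, hi (by exact_mod_cast b) h1,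
        lo (by exact_mod_cast c) h4, hi (by exact_mod_cast d) h3⟩
    · exact Or.inr ⟨lo (by exact_mod_cast a) h2, hi (by exact_mod_cast b) h1,
        lo (by exact_mod_cast c) h6, hi (by exact_mod_cast d) h5⟩
  | 2, h =>
    rcases h with ⟨a, b, c, d⟩ | ⟨a, b, c, d⟩
    · exact Or.inl ⟨lo (by exact_mod_cast a) h6, hi (by exact_mod_cast b) h5,
        lo (by exact_mod_cast c) h2, hi (by exact_mod_cast d) h1⟩
    · exact Or.inr ⟨lo (by exact_mod_cast a) h6, hi (by exact_mod_cast b) h5,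
        lo (by exact_mod_cast c) h4, hi (by exact_mod_cast d) h3⟩

theorem lo' {A n : ℤ} {x : ℝ} (h1 : A ≤ n) (h2 : (n : ℝ) ≤ x) : (A : ℝ) ≤ x :=
  le_trans (by exact_mod_cast h1) h2

theorem hi' {B n : ℤ} {x : ℝ} (h1 : n + 1 ≤ B) (h2 : x ≤ n + 1) : x ≤ (B : ℝ) :=
  le_trans h2 (by exact_mod_cast h1)

theorem S_of_P {t : Fin 3} {i j s : ℤ} {u v : ℝ} (h1 : (i : ℝ) ≤ u) (h2 : u ≤ i + 1) (h3 : (j : ℝ) ≤ v)
    (h4 : v ≤ j + 1) (h5 : (s : ℝ) ≤ u + v) (h6 : u + v ≤ s + 1) (h : P t i j s) : S t u v := by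
  match t, h with
  | 0, h =>
    rcases h with ⟨a, b, c, d⟩ | ⟨a, b, c, d⟩
    · exact Or.inl ⟨by exact_mod_cast lo' a h3, by exact_mod_cast hi' b h4,
        by exact_mod_cast lo' c h5, by exact_mod_cast hi' d h6⟩
    · exact Or.inr ⟨by exact_mod_cast lo' a h3, by exact_mod_cast hi' b h4,
        by exact_mod_cast lo' c h1, by exact_mod_cast hi' d h2⟩
  | 1, h =>
    rcases h with ⟨a, b, c, d⟩ | ⟨a, b, c, d⟩
    · exact Or.inl ⟨by exact_mod_cast lo' a h1, by exact_mod_cast hi' b h2,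
        by exact_mod_cast lo' c h3, by exact_mod_cast hi' d h4⟩
    · exact Or.inr ⟨by exact_mod_cast lo' a h1, by exact_mod_cast hi' b h2,
        by exact_mod_cast lo' c h5, by exact_mod_cast hi' d h6⟩
  | 2, h =>
    rcases h with ⟨a, b, c, d⟩ | ⟨a, b, c, d⟩
    · exact Or.inl ⟨by exact_mod_cast lo' a h5, by exact_mod_cast hi' b h6,
        by exact_mod_cast lo' c h1, by exact_mod_cast hi' d h2⟩
    · exact Or.inr ⟨by exact_mod_cast lo' a h5, by exact_mod_cast hi' b h6,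
        by exact_mod_cast lo' c h3, by exact_mod_cast hi' d h4⟩

/-! ### the tiling -/

def ty : Fin 8 → Fin 3 := ![0, 0, 0, 1, 2, 1, 0, 2]
def ta : Fin 8 → ℤ := ![0, 1, 2, 0, 5, 0, 11, 15]
def tb : Fin 8 → ℤ := ![0, 0, 0, 1, -3, 2, 2, 2]

/-- shift of the tile `k, m, n` -/
def sa (k : Fin 8) (m n : ℤ) : ℤ := ta k + 16 * m + 3 * n
def sb (k : Fin 8) (n : ℤ) : ℤ := tb k + 2 * n

/-- the tiles -/
def tile (k : Fin 8) (m n : ℤ) : Set ℂ :=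
  {z | S (ty k) (U z - sa k m n) (V z - sb k n)}

/-- the cell `i, j, s` belongs to the tile `k, m, n` -/
def Q (k : Fin 8) (m n i j s : ℤ) : Prop :=
  P (ty k) (i - sa k m n) (j - sb k n) (s - sa k m n - sb k n)

instance (k : Fin 8) (m n i j s : ℤ) : Decidable (Q k m n i j s) := by
  unfold Q
  infer_instance

def tab : List (Fin 8 × ℤ × ℤ) :=
  [(3, 0, 0), (3, 0, 0), (5, 0, 0), (5, 0, 0), (3, 0, 0), (3, 0, 0), (5, 0, 0), (5, 0, 0), (3, 0, 0), (5, 0, 0),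
   (5, 0, 0), (0, 0, 1), (5, 0, 0), (0, 0, 1), (0, 0, 1), (1, 0, 1), (0, 0, 1), (1, 0, 1), (1, 0, 1), (2, 0, 1),
   (1, 0, 1), (2, 0, 1), (2, 0, 1), (3, 0, 1), (2, 0, 1), (3, 0, 1), (3, 0, 1), (5, 0, 1), (0, 0, 2), (0, 0, 2),
   (0, 0, 2), (0, 0, 2), (1, 0, 2), (1, 0, 2), (1, 0, 2), (1, 0, 2), (2, 0, 2), (2, 0, 2), (2, 0, 2), (2, 0, 2),
   (4, 0, 2), (4, 0, 2), (4, 0, 2), (6, 0, 0), (7, 0, -1), (6, 0, 0), (6, 0, 0), (4, 0, 3), (6, 0, 0), (7, 0, 0),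
   (4, 0, 3), (4, 0, 3), (7, 0, 0), (7, 0, 0), (4, 0, 3), (4, 0, 3), (7, 0, 0), (7, 0, 0), (7, 0, 0), (7, 0, 0),
   (6, 0, 1), (6, 0, 1), (6, 0, 1), (6, 0, 1)]

theorem tab_ok : ∀ (i : Fin 16) (j t : Fin 2),
    Q (tab.getD ((i.1 * 2 + j.1) * 2 + t.1) (0, 0, 0)).1 (tab.getD ((i.1 * 2 + j.1) * 2 + t.1) (0, 0, 0)).2.1
      (tab.getD ((i.1 * 2 + j.1) * 2 + t.1) (0, 0, 0)).2.2 (i.1 : ℤ) (j.1 : ℤ) ((i.1 : ℤ) + j.1 + t.1) := by
  decide +kernel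

theorem Q_shift (k : Fin 8) (m n m' n' i j s : ℤ) :
    Q k (m + m') (n + n') (i + 16 * m' + 3 * n') (j + 2 * n') (s + 16 * m' + 5 * n') ↔ Q k m n i j s := by
  unfold Q sa sb
  have e1 : i + 16 * m' + 3 * n' - (ta k + 16 * (m + m') + 3 * (n + n')) = i - (ta k + 16 * m + 3 * n) := by ring
  have e2 : j + 2 * n' - (tb k + 2 * (n + n')) = j - (tb k + 2 * n) := by ring
  have e3 : s + 16 * m' + 5 * n' - (ta k + 16 * (m + m') + 3 * (n + n')) - (tb k + 2 * (n + n'))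
      = s - (ta k + 16 * m + 3 * n) - (tb k + 2 * n) := by ring
  rw [e1, e2, e3]

theorem exists_Q (i j s : ℤ) (hs : s = i + j ∨ s = i + j + 1) : ∃ (k : Fin 8) (m n : ℤ), Q k m n i j s := by
  set n' := j / 2 with hn'
  set i1 := i - 3 * n' with hi1
  set m' := i1 / 16 with hm'
  obtain ⟨i0, hi0⟩ : ∃ i0 : Fin 16, (i0.1 : ℤ) = i1 - 16 * m' := by
    refine ⟨⟨(i1 - 16 * m').toNat, by omega⟩, by simp; omega⟩
  obtain ⟨j0, hj0⟩ : ∃ j0 : Fin 2, (j0.1 : ℤ) = j - 2 * n' := by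
    refine ⟨⟨(j - 2 * n').toNat, by omega⟩, by simp; omega⟩
  obtain ⟨t0, ht0⟩ : ∃ t0 : Fin 2, (t0.1 : ℤ) = s - i - j := by
    refine ⟨⟨(s - i - j).toNat, by omega⟩, by simp; omega⟩
  have h := tab_ok i0 j0 t0
  set e := tab.getD ((i0.1 * 2 + j0.1) * 2 + t0.1) (0, 0, 0)
  refine ⟨e.1, e.2.1 + m', e.2.2 + n', ?_⟩
  rw [← Q_shift e.1 e.2.1 e.2.2 m' n', hi0, hj0, ht0] at h
  have e1 : i1 - 16 * m' + 16 * m' + 3 * n' = i := by rw [hi1]; ring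
  have e2 : j - 2 * n' + 2 * n' = j := by ring
  have e3 : i1 - 16 * m' + (j - 2 * n') + (s - i - j) + 16 * m' + 5 * n' = s := by rw [hi1]; ring
  rwa [e1, e2, e3] at h

theorem tab_unique : ∀ (i : Fin 16) (j t : Fin 2) (k : Fin 8) (M : Fin 3) (N : Fin 6),
    Q k ((M.1 : ℤ) - 1) ((N.1 : ℤ) - 1) (i.1 : ℤ) (j.1 : ℤ) ((i.1 : ℤ) + j.1 + t.1) →
    tab.getD ((i.1 * 2 + j.1) * 2 + t.1) (0, 0, 0) = (k, (M.1 : ℤ) - 1, (N.1 : ℤ) - 1) := by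
  decide +kernel

theorem P_bounds {t : Fin 3} {i j s : ℤ} (hs : s = i + j ∨ s = i + j + 1) (h : P t i j s) :
    -4 ≤ j ∧ j ≤ 0 ∧ -3 ≤ i ∧ i ≤ 3 := by
  match t, h with
  | 0, h =>
    have h' : (-2 ≤ j ∧ j + 1 ≤ 0 ∧ -1 ≤ s ∧ s + 1 ≤ 0) ∨ (-4 ≤ j ∧ j + 1 ≤ -2 ∧ 1 ≤ i ∧ i + 1 ≤ 2) := h
    omega
  | 1, h =>
    have h' : (0 ≤ i ∧ i + 1 ≤ 2 ∧ -1 ≤ j ∧ j + 1 ≤ 0) ∨ (2 ≤ i ∧ i + 1 ≤ 4 ∧ 1 ≤ s ∧ s + 1 ≤ 2) := h
    omega
  | 2, h =>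
    have h' : (-2 ≤ s ∧ s + 1 ≤ 0 ∧ -1 ≤ i ∧ i + 1 ≤ 0) ∨
      (-4 ≤ s ∧ s + 1 ≤ -2 ∧ -2 ≤ j ∧ j + 1 ≤ -1) := h
    omega

theorem ta_bounds : ∀ k : Fin 8, 0 ≤ ta k ∧ ta k ≤ 15 := by decide
theorem tb_bounds : ∀ k : Fin 8, -3 ≤ tb k ∧ tb k ≤ 2 := by decide

/-- the tile of a cell is the one given by the table -/
theorem Q_tab {k : Fin 8} {m n i j s : ℤ} (i0 : Fin 16) (j0 t0 : Fin 2) (m' n' : ℤ)
    (hi0 : (i0.1 : ℤ) = i - 16 * m' - 3 * n') (hj0 : (j0.1 : ℤ) = j - 2 * n')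
    (ht0 : (t0.1 : ℤ) = s - i - j) (h : Q k m n i j s) :
    tab.getD ((i0.1 * 2 + j0.1) * 2 + t0.1) (0, 0, 0) = (k, m - m', n - n') := by
  have h1 : Q k (m - m') (n - n') (i0.1 : ℤ) (j0.1 : ℤ) ((i0.1 : ℤ) + j0.1 + t0.1) := by
    rw [← Q_shift k (m - m') (n - n') m' n', hi0, hj0, ht0]
    convert h using 1 <;> ring
  have b0 := i0.2
  have b1 := j0.2
  have b2 := t0.2
  have h1' : P (ty k) ((i0.1 : ℤ) - sa k (m - m') (n - n')) ((j0.1 : ℤ) - sb k (n - n'))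
    ((i0.1 : ℤ) + j0.1 + t0.1 - sa k (m - m') (n - n') - sb k (n - n')) := h1
  have hb := P_bounds (by omega) h1'
  unfold sa sb at hb
  have c1 := ta_bounds k
  have c2 := tb_bounds k
  obtain ⟨N, hN⟩ : ∃ N : Fin 6, (N.1 : ℤ) - 1 = n - n' :=
    ⟨⟨(n - n' + 1).toNat, by omega⟩, by simp; omega⟩
  obtain ⟨M, hM⟩ : ∃ M : Fin 3, (M.1 : ℤ) - 1 = m - m' :=
    ⟨⟨(m - m' + 1).toNat, by omega⟩, by simp; omega⟩
  have := tab_unique i0 j0 t0 k M N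
  rw [hN, hM] at this
  exact this h1

theorem unique_Q {k k' : Fin 8} {m n m' n' i j s : ℤ} (hs : s = i + j ∨ s = i + j + 1)
    (h : Q k m n i j s) (h' : Q k' m' n' i j s) : k = k' ∧ m = m' ∧ n = n' := by
  set q := j / 2 with hn'
  set i1 := i - 3 * q with hi1
  set p := i1 / 16 with hm'
  obtain ⟨i0, hi0⟩ : ∃ i0 : Fin 16, (i0.1 : ℤ) = i - 16 * p - 3 * q := by
    refine ⟨⟨(i1 - 16 * p).toNat, by omega⟩, by simp; omega⟩
  obtain ⟨j0, hj0⟩ : ∃ j0 : Fin 2, (j0.1 : ℤ) = j - 2 * q := by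
    refine ⟨⟨(j - 2 * q).toNat, by omega⟩, by simp; omega⟩
  obtain ⟨t0, ht0⟩ : ∃ t0 : Fin 2, (t0.1 : ℤ) = s - i - j := by
    refine ⟨⟨(s - i - j).toNat, by omega⟩, by simp; omega⟩
  have e1 := Q_tab i0 j0 t0 p q hi0 hj0 ht0 h
  have e2 := Q_tab i0 j0 t0 p q hi0 hj0 ht0 h'
  rw [e1] at e2
  simp only [Prod.mk.injEq] at e2
  obtain ⟨a, b, c⟩ := e2
  exact ⟨a, by omega, by omega⟩

end Pool.Agent.W275.Hole
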