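import Mathlib

/-!
# A criterion for a space not to be simply connected

If a space `N` carries a continuous nowhere vanishing complex function `f` and two paths with the
same end points, `f` of the first one in the closed upper half plane and `f` of the second one in the
closed lower half plane, from the negative to the positive real axis, then `N` is not simply connected.
-/

set_option autoImplicit false

namespace Pool.Agent.W275.Hole

open Complex Topology

/-- the argument is continuous along a path in the closed upper half plane without the origin -/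
theorem continuous_arg_of_nonneg_im {X : Type*} [TopologicalSpace X] {g : X → ℂ} (hg : Continuous g)
    (h0 : ∀ t, g t ≠ 0) (him : ∀ t, 0 ≤ (g t).im) : Continuous fun t => arg (g t) := by
  rw [continuous_iff_continuousAt]
  intro t
  by_cases hs : g t ∈ slitPlane
  · exact (continuousAt_arg hs).comp hg.continuousAt
  · rw [mem_slitPlane_iff, not_or, not_lt, not_not] at hs
    have hre : (g t).re < 0 := by
      refine lt_of_le_of_ne hs.1 ?_
      intro h
      exact h0 t (Complex.ext h hs.2)
    have h1 := continuousWithinAt_arg_of_re_neg_of_im_zero hre hs.2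
    have h2 : Filter.Tendsto g (𝓝 t) (𝓝[{z : ℂ | 0 ≤ z.im}] (g t)) :=
      tendsto_nhdsWithin_iff.2 ⟨hg.continuousAt, Filter.Eventually.of_forall him⟩
    exact h1.tendsto.comp h2

/-- the direction of a nonzero number -/
noncomputable def dir (z : ℂ) (h : z ≠ 0) : Circle :=
  ⟨z / ‖z‖, by
    have hn : (‖z‖ : ℝ) ≠ 0 := norm_ne_zero_iff.2 h
    change z / ‖z‖ ∈ Metric.sphere (0 : ℂ) 1
    rw [mem_sphere_zero_iff_norm, norm_div, norm_real, norm_norm, div_self hn]⟩

theorem dir_eq_exp (z : ℂ) (h : z ≠ 0) (θ : ℝ) (hθ : z = ‖z‖ * Complex.exp (θ * I)) :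
    dir z h = Circle.exp θ := by
  apply Subtype.ext
  have hn : ((‖z‖ : ℝ) : ℂ) ≠ 0 := by
    exact_mod_cast (norm_ne_zero_iff.2 h)
  change z / ‖z‖ = _
  rw [Circle.coe_exp]
  rw [div_eq_iff hn, mul_comm]
  exact hθ

theorem not_simplyConnected {N : Type*} [TopologicalSpace N] (f : N → ℂ) (hf : Continuous f)
    (h0 : ∀ z, f z ≠ 0) {x y : N} (α β : Path x y) (hα : ∀ t, 0 ≤ (f (α t)).im)
    (hβ : ∀ t, (f (β t)).im ≤ 0) (hx : (f x).re < 0) (hy : 0 < (f y).re) :
    ¬ SimplyConnectedSpace N := by
  intro hN
  have hxi : (f x).im = 0 := by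
    apply le_antisymm
    · have := hβ 0
      rwa [β.source] at this
    · have := hα 0
      rwa [α.source] at this
  have hyi : (f y).im = 0 := by
    apply le_antisymm
    · have := hβ 1
      rwa [β.target] at this
    · have := hα 1
      rwa [α.target] at this
  let φ : C(N, Circle) := ⟨fun z => dir (f z) (h0 z), by
    apply Continuous.subtype_mk
    exact hf.div (continuous_ofReal.comp hf.norm) (fun z => by
      exact_mod_cast (norm_ne_zero_iff.2 (h0 z)))⟩
  have hhom : Path.Homotopic α β := SimplyConnectedSpace.paths_homotopic α β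
  obtain ⟨H⟩ := hhom
  have h1 : (φ.comp α.toContinuousMap).HomotopicRel (φ.comp β.toContinuousMap) {0, 1} :=
    ⟨H.compContinuousMap φ⟩
  have cov := Circle.isCoveringMap_exp
  -- the lifts
  let a : C(unitInterval, ℝ) := ⟨fun t => arg (f (α t)),
    continuous_arg_of_nonneg_im (hf.comp α.continuous) (fun t => h0 _) hα⟩
  let b : C(unitInterval, ℝ) := ⟨fun t => 2 * Real.pi - arg (starRingEnd ℂ (f (β t))),
    continuous_const.sub (continuous_arg_of_nonneg_im (Complex.continuous_conj.comp
      (hf.comp β.continuous)) (fun t => by simpa using h0 _) (fun t => by simpa using hβ t))⟩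
  have ea : ∀ t, Circle.exp (a t) = φ (α t) := by
    intro t
    refine (dir_eq_exp (f (α t)) (h0 _) _ ?_).symm
    exact (norm_mul_exp_arg_mul_I (f (α t))).symm
  have eb : ∀ t, Circle.exp (b t) = φ (β t) := by
    intro t
    refine (dir_eq_exp (f (β t)) (h0 _) _ ?_).symm
    have h2 := norm_mul_exp_arg_mul_I (starRingEnd ℂ (f (β t)))
    have h3 := congrArg (starRingEnd ℂ) h2
    rw [map_mul, Complex.conj_conj, conj_ofReal, ← Complex.exp_conj, map_mul, conj_ofReal, conj_I,
      Complex.norm_conj] at h3
    change f (β t) = ‖f (β t)‖ * Complex.exp (((2 * Real.pi - arg (starRingEnd ℂ (f (β t))) : ℝ)) * I)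
    have e : Complex.exp (((2 * Real.pi - arg (starRingEnd ℂ (f (β t))) : ℝ)) * I)
        = Complex.exp ((arg (starRingEnd ℂ (f (β t))) : ℂ) * -I) := by
      rw [ofReal_sub, sub_mul, ofReal_mul, ofReal_ofNat, Complex.exp_sub, Complex.exp_two_pi_mul_I,
        one_div, ← Complex.exp_neg, mul_neg]
    rw [e]
    exact h3.symm
  have argx : arg (f x) = Real.pi := by
    rw [arg_eq_pi_iff]
    exact ⟨hx, hxi⟩
  have argxc : arg (starRingEnd ℂ (f x)) = Real.pi := by
    rw [arg_eq_pi_iff]
    exact ⟨by simpa using hx, by simpa using hxi⟩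
  have argy : arg (f y) = 0 := by
    rw [arg_eq_zero_iff]
    exact ⟨hy.le, hyi⟩
  have argyc : arg (starRingEnd ℂ (f y)) = 0 := by
    rw [arg_eq_zero_iff]
    exact ⟨by simpa using hy.le, by simpa using hyi⟩
  have a0 : a 0 = Real.pi := by
    change arg (f (α 0)) = _
    rw [α.source, argx]
  have b0 : b 0 = Real.pi := by
    change 2 * Real.pi - arg (starRingEnd ℂ (f (β 0))) = _
    rw [β.source, argxc]
    ring
  have a1 : a 1 = 0 := by
    change arg (f (α 1)) = _
    rw [α.target, argy]
  have b1 : b 1 = 2 * Real.pi := by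
    change 2 * Real.pi - arg (starRingEnd ℂ (f (β 1))) = _
    rw [β.target, argyc]
    ring
  have s0 : (φ.comp α.toContinuousMap) 0 = Circle.exp Real.pi := by
    rw [← a0, ea 0]; rfl
  have s1 : (φ.comp β.toContinuousMap) 0 = Circle.exp Real.pi := by
    rw [← b0, eb 0]; rfl
  have key := cov.liftPath_apply_one_eq_of_homotopicRel h1 Real.pi s0 s1
  have la : a = cov.liftPath (φ.comp α.toContinuousMap) Real.pi s0 :=
    (cov.eq_liftPath_iff' s0).2 ⟨funext ea, a0⟩
  have lb : b = cov.liftPath (φ.comp β.toContinuousMap) Real.pi s1 :=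
    (cov.eq_liftPath_iff' s1).2 ⟨funext eb, b0⟩
  rw [← la, ← lb, a1, b1] at key
  have := Real.pi_pos
  linarith

end Pool.Agent.W275.Hole
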