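import Pool.Agent.W275.Hole.Geo
import Pool.Agent.W275.Hole.NotSC
import Pool.Agent.H927R2.VT.KSTAR
import Pool.Agent.H927R2.VT.KCB

/-!
# The tiling: covering, disjointness, isometries, the disc, the hole
-/

set_option autoImplicit false

namespace Pool.Agent.W275.Hole

open Complex Topology

/-! ### covering -/

theorem exists_tile (z : ℂ) : ∃ (k : Fin 8) (m n : ℤ), z ∈ tile k m n := by
  set u := U z
  set v := V z
  have hu1 := Int.floor_le u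
  have hu2 := Int.lt_floor_add_one u
  have hv1 := Int.floor_le v
  have hv2 := Int.lt_floor_add_one v
  by_cases h : u + v ≤ ⌊u⌋ + ⌊v⌋ + 1
  · obtain ⟨k, m, n, hQ⟩ := exists_Q ⌊u⌋ ⌊v⌋ (⌊u⌋ + ⌊v⌋) (Or.inl rfl)
    refine ⟨k, m, n, S_of_P (i := ⌊u⌋ - sa k m n) (j := ⌊v⌋ - sb k n)
      (s := ⌊u⌋ + ⌊v⌋ - sa k m n - sb k n) ?_ ?_ ?_ ?_ ?_ ?_ hQ⟩ <;> push_cast <;> linarith
  · push Not at h
    obtain ⟨k, m, n, hQ⟩ := exists_Q ⌊u⌋ ⌊v⌋ (⌊u⌋ + ⌊v⌋ + 1) (Or.inr rfl)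
    refine ⟨k, m, n, S_of_P (i := ⌊u⌋ - sa k m n) (j := ⌊v⌋ - sb k n)
      (s := ⌊u⌋ + ⌊v⌋ + 1 - sa k m n - sb k n) ?_ ?_ ?_ ?_ ?_ ?_ hQ⟩ <;> push_cast <;> linarith

/-! ### disjointness -/

/-- a point of a tile in general position determines the tile -/
theorem Q_of_mem {z : ℂ} {k : Fin 8} {m n i j s : ℤ} (h1 : (i : ℝ) < U z) (h2 : U z < i + 1)
    (h3 : (j : ℝ) < V z) (h4 : V z < j + 1) (h5 : (s : ℝ) < U z + V z) (h6 : U z + V z < s + 1)
    (h : z ∈ tile k m n) : Q k m n i j s := by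
  refine P_of_S (u := U z - sa k m n) (v := V z - sb k n) ?_ ?_ ?_ ?_ ?_ ?_ h <;> push_cast <;> linarith

theorem gen_right (x : ℝ) (c : ℝ) (hc : 0 < c) :
    ∀ᶠ δ in 𝓝[>] (0 : ℝ), (⌊x⌋ : ℝ) < x + c * δ ∧ x + c * δ < ⌊x⌋ + 1 := by
  have h1 := Int.floor_le x
  have h2 := Int.lt_floor_add_one x
  have h3 : Filter.Tendsto (fun δ : ℝ => x + c * δ) (𝓝[>] 0) (𝓝 x) := by
    have : Filter.Tendsto (fun δ : ℝ => x + c * δ) (𝓝 0) (𝓝 (x + c * 0)) := by
      apply Continuous.tendsto; fun_prop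
    rw [mul_zero, add_zero] at this
    exact this.mono_left nhdsWithin_le_nhds
  filter_upwards [h3.eventually_lt_const h2, self_mem_nhdsWithin] with δ h4 h5
  have : 0 < c * δ := mul_pos hc h5
  exact ⟨by linarith, h4⟩

theorem disjoint_interior {k k' : Fin 8} {m n m' n' : ℤ} (h : tile k m n ≠ tile k' m' n') :
    Disjoint (interior (tile k m n)) (interior (tile k' m' n')) := by
  rw [Set.disjoint_left]
  intro x hx hx'
  apply h
  have ho : interior (tile k m n) ∩ interior (tile k' m' n') ∈ 𝓝 x :=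
    Filter.inter_mem (isOpen_interior.mem_nhds hx) (isOpen_interior.mem_nhds hx')
  have hc : Filter.Tendsto (fun δ : ℝ => x + pt δ δ) (𝓝[>] 0) (𝓝 x) := by
    have : Continuous (fun δ : ℝ => x + pt δ δ) := by
      have e : (fun δ : ℝ => x + pt δ δ) = fun δ : ℝ => x + (((δ + δ / 2 : ℝ) : ℂ) + ((δ * √3 / 2 : ℝ) : ℂ) * I) := by
        ext δ
        congr 1
        apply Complex.ext <;> simp [pt]
      rw [e]
      fun_prop
    have h1 := this.tendsto 0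
    have e : x + pt 0 0 = x := by
      have : pt 0 0 = 0 := by apply Complex.ext <;> simp [pt]
      rw [this, add_zero]
    rw [e] at h1
    exact h1.mono_left nhdsWithin_le_nhds
  have hev := hc.eventually ho
  obtain ⟨δ, h1, h2, h3, h4⟩ := (hev.and ((gen_right (U x) 1 one_pos).and ((gen_right (V x) 1 one_pos).and
    (gen_right (U x + V x) 2 two_pos)))).exists
  set z := x + pt δ δ with hz
  have hU : U z = U x + 1 * δ := by rw [hz, U_add, U_pt]; ring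
  have hV : V z = V x + 1 * δ := by rw [hz, V_add, V_pt]; ring
  have hUV : U z + V z = U x + V x + 2 * δ := by rw [hU, hV]; ring
  rw [← hU] at h2
  rw [← hV] at h3
  rw [← hUV] at h4
  have hs : ⌊U x + V x⌋ = ⌊U x⌋ + ⌊V x⌋ ∨ ⌊U x + V x⌋ = ⌊U x⌋ + ⌊V x⌋ + 1 := by
    have a1 := Int.le_floor_add (U x) (V x)
    have a2 := Int.le_floor_add_floor (U x) (V x)
    omega
  have q1 := Q_of_mem h2.1 h2.2 h3.1 h3.2 h4.1 h4.2 (interior_subset h1.1)
  have q2 := Q_of_mem h2.1 h2.2 h3.1 h3.2 h4.1 h4.2 (interior_subset h1.2)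
  obtain ⟨rfl, rfl, rfl⟩ := unique_Q hs q1 q2
  rfl

/-! ### isometries -/

theorem S_rot1 (u v : ℝ) : S 1 u v ↔ S 0 (u + v) (-u) := by
  show ((0 ≤ u ∧ u ≤ 2 ∧ -1 ≤ v ∧ v ≤ 0) ∨ (2 ≤ u ∧ u ≤ 4 ∧ 1 ≤ u + v ∧ u + v ≤ 2)) ↔
    ((-2 ≤ -u ∧ -u ≤ 0 ∧ -1 ≤ u + v + -u ∧ u + v + -u ≤ 0) ∨
      (-4 ≤ -u ∧ -u ≤ -2 ∧ 1 ≤ u + v ∧ u + v ≤ 2))
  constructor
  · rintro (⟨a, b, c, d⟩ | ⟨a, b, c, d⟩)
    · left; refine ⟨?_, ?_, ?_, ?_⟩ <;> linarith
    · right; refine ⟨?_, ?_, ?_, ?_⟩ <;> linarith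
  · rintro (⟨a, b, c, d⟩ | ⟨a, b, c, d⟩)
    · left; refine ⟨?_, ?_, ?_, ?_⟩ <;> linarith
    · right; refine ⟨?_, ?_, ?_, ?_⟩ <;> linarith

theorem S_rot2 (u v : ℝ) : S 2 u v ↔ S 0 (-v) (u + v) := by
  show ((-2 ≤ u + v ∧ u + v ≤ 0 ∧ -1 ≤ u ∧ u ≤ 0) ∨ (-4 ≤ u + v ∧ u + v ≤ -2 ∧ -2 ≤ v ∧ v ≤ -1)) ↔
    ((-2 ≤ u + v ∧ u + v ≤ 0 ∧ -1 ≤ -v + (u + v) ∧ -v + (u + v) ≤ 0) ∨
      (-4 ≤ u + v ∧ u + v ≤ -2 ∧ 1 ≤ -v ∧ -v ≤ 2))
  constructor
  · rintro (⟨a, b, c, d⟩ | ⟨a, b, c, d⟩)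
    · left; refine ⟨?_, ?_, ?_, ?_⟩ <;> linarith
    · right; refine ⟨?_, ?_, ?_, ?_⟩ <;> linarith
  · rintro (⟨a, b, c, d⟩ | ⟨a, b, c, d⟩)
    · left; refine ⟨?_, ?_, ?_, ?_⟩ <;> linarith
    · right; refine ⟨?_, ?_, ?_, ?_⟩ <;> linarith

/-- the base tile -/
def C0 : Set ℂ := {z | S 0 (U z) (V z)}

theorem om_mul_inv (z : ℂ) : om * ((omc⁻¹ : Circle) * z) = z := by
  have h : om = (omc : ℂ) := rfl
  rw [h, ← mul_assoc, ← Circle.coe_mul, mul_inv_cancel, Circle.coe_one, one_mul]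

theorem shape_iso (t : Fin 3) (a b : ℝ) :
    ∃ g : ℂ ≃ᵢ ℂ, {z | S t (U z - a) (V z - b)} = g '' C0 := by
  have key : ∀ (c : Circle), (∀ z, S t (U z) (V z) ↔ S 0 (U ((c⁻¹ : Circle) * z)) (V ((c⁻¹ : Circle) * z))) →
      ∃ g : ℂ ≃ᵢ ℂ, {z | S t (U z - a) (V z - b)} = g '' C0 := by
    intro c hc
    refine ⟨(rotation c).toIsometryEquiv.trans (IsometryEquiv.addRight (pt a b)), ?_⟩
    ext z
    constructor
    · intro hz
      refine ⟨(c⁻¹ : Circle) * (z - pt a b), ?_, ?_⟩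
      · change S 0 _ _
        rw [← hc, U_sub, V_sub, U_pt, V_pt]
        exact hz
      · change (c : ℂ) * ((c⁻¹ : Circle) * (z - pt a b)) + pt a b = z
        rw [← mul_assoc, ← Circle.coe_mul, mul_inv_cancel, Circle.coe_one, one_mul, sub_add_cancel]
    · rintro ⟨w, hw, rfl⟩
      change S t (U ((c : ℂ) * w + pt a b) - a) (V ((c : ℂ) * w + pt a b) - b)
      rw [U_add, V_add, U_pt, V_pt, add_sub_cancel_right, add_sub_cancel_right, hc, ← mul_assoc,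
        ← Circle.coe_mul, inv_mul_cancel, Circle.coe_one, one_mul]
      exact hw
  match t with
  | 0 =>
    apply key 1
    intro z
    rw [inv_one, Circle.coe_one, one_mul]
  | 1 =>
    apply key omc
    intro z
    set w := (((omc⁻¹ : Circle) : ℂ)) * z with hw
    have hz : z = om * w := (om_mul_inv z).symm
    rw [hz, U_om, V_om, S_rot1]
    have e1 : -V w + (U w + V w) = U w := by ring
    have e2 : - -V w = V w := by ring
    rw [e1, e2]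
  | 2 =>
    apply key omc⁻¹
    intro z
    rw [inv_inv]
    change _ ↔ S 0 (U (om * z)) (V (om * z))
    rw [U_om, V_om, S_rot2]

theorem tile_iso (k : Fin 8) (m n : ℤ) : ∃ g : ℂ ≃ᵢ ℂ, tile k m n = g '' C0 :=
  shape_iso (ty k) (sa k m n) (sb k n)

/-! ### the tile is a disc -/

/-- the gauge of the tile -/
noncomputable def gauge (x : ℂ) : ℝ :=
  max (max (2 * (U x + V x)) (2 * U x)) (max (|V x| / 2) (min (-(2 * (U x + V x))) (-(2 * U x))))

theorem gauge_cont : Continuous gauge := by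
  have := continuous_U
  have := continuous_V
  unfold gauge
  fun_prop

theorem gauge_hom (t : ℝ) (ht : 0 ≤ t) (x : ℂ) : gauge ((t : ℂ) * x) = t * gauge x := by
  unfold gauge
  rw [U_real_mul, V_real_mul, mul_max_of_nonneg _ _ ht, mul_max_of_nonneg _ _ ht,
    mul_max_of_nonneg _ _ ht, mul_min_of_nonneg _ _ ht, abs_mul, abs_of_nonneg ht]
  congr 1
  · congr 1 <;> ring
  · congr 1
    · ring
    · congr 1 <;> ring

theorem gauge_pos (x : ℂ) (hx : x ≠ 0) : 0 < gauge x := by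
  unfold gauge
  by_cases hv : V x = 0
  · have hu : U x ≠ 0 := by
      intro hu
      apply hx
      rw [← pt_UV x, hu, hv]
      apply Complex.ext <;> simp [pt]
    rw [hv]
    rcases lt_or_gt_of_ne hu with h | h
    · refine lt_of_lt_of_le ?_ (le_max_right _ _)
      refine lt_of_lt_of_le ?_ (le_max_right _ _)
      rw [lt_min_iff]
      constructor <;> linarith
    · refine lt_of_lt_of_le ?_ (le_max_left _ _)
      refine lt_of_lt_of_le ?_ (le_max_right _ _)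
      linarith
  · refine lt_of_lt_of_le ?_ (le_max_right _ _)
    refine lt_of_lt_of_le ?_ (le_max_left _ _)
    have := abs_pos.2 hv
    linarith

theorem mem_C0_iff (z : ℂ) : z + pt (3 / 2) (-2) ∈ C0 ↔ gauge z ≤ 1 := by
  change ((-2 ≤ V (z + pt (3 / 2) (-2)) ∧ V (z + pt (3 / 2) (-2)) ≤ 0 ∧
      -1 ≤ U (z + pt (3 / 2) (-2)) + V (z + pt (3 / 2) (-2)) ∧
      U (z + pt (3 / 2) (-2)) + V (z + pt (3 / 2) (-2)) ≤ 0) ∨
    (-4 ≤ V (z + pt (3 / 2) (-2)) ∧ V (z + pt (3 / 2) (-2)) ≤ -2 ∧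
      1 ≤ U (z + pt (3 / 2) (-2)) ∧ U (z + pt (3 / 2) (-2)) ≤ 2)) ↔ _
  rw [U_add, V_add, U_pt, V_pt]
  unfold gauge
  rw [max_le_iff, max_le_iff, max_le_iff, min_le_iff]
  set p := U z
  set q := V z
  have habs : |q| / 2 ≤ 1 ↔ -2 ≤ q ∧ q ≤ 2 := by
    rw [div_le_iff₀ two_pos, abs_le]
    constructor <;> rintro ⟨a, b⟩ <;> constructor <;> linarith
  rw [habs]
  constructor
  · rintro (⟨a, b, c, d⟩ | ⟨a, b, c, d⟩)
    · exact ⟨⟨by linarith, by linarith⟩, ⟨by linarith, by linarith⟩, Or.inl (by linarith)⟩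
    · exact ⟨⟨by linarith, by linarith⟩, ⟨by linarith, by linarith⟩, Or.inr (by linarith)⟩
  · rintro ⟨⟨a, b⟩, ⟨c, d⟩, e⟩
    rcases le_total 0 q with h | h
    · left
      refine ⟨by linarith, by linarith, ?_, by linarith⟩
      rcases e with e | e <;> linarith
    · right
      refine ⟨by linarith, by linarith, ?_, by linarith⟩
      rcases e with e | e <;> linarith

theorem C0_disc : Nonempty (C0 ≃ₜ Metric.closedBall (0 : ℂ) 1) := by
  obtain ⟨-, ⟨h⟩⟩ := VT927.k_STAR gauge gauge_cont gauge_hom gauge_pos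
  have e : C0 = (Homeomorph.addRight (pt (3 / 2) (-2))) '' {x : ℂ | gauge x ≤ 1} := by
    ext z
    constructor
    · intro hz
      refine ⟨z - pt (3 / 2) (-2), ?_, by simp⟩
      change gauge _ ≤ 1
      rw [← mem_C0_iff, sub_add_cancel]
      exact hz
    · rintro ⟨w, hw, rfl⟩
      exact (mem_C0_iff w).2 hw
  rw [e]
  exact ⟨((Homeomorph.addRight (pt (3 / 2) (-2))).image _).symm.trans h⟩

end Pool.Agent.W275.Hole
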